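import Mathlib

/-!
# Uniformly sharp closed convex sets and polyhedrality
-/

namespace Pool.Agent.Results.MP_c48ca6_an.Sharp

open Set Filter Topology Metric
open scoped RealInnerProductSpace

section Defs

variable {H : Type*} [NormedAddCommGroup H] [InnerProductSpace ℝ H]

/-- The normal cone of `A` at `x`. -/
def normalCone (A : Set H) (x : H) : Set H := {v | ∀ a ∈ A, ⟪a - x, v⟫ ≤ 0}

/-- `A` is `α`-sharp with respect to `u`. -/
def SharpAt (A : Set H) (u : H) (α : ℝ) : Prop :=
  ∀ x ∈ A, u ∉ normalCone A x → α ≤ infDist u (normalCone A x)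

/-- One `α > 0` works for all unit vectors. -/
def UniformlySharp (A : Set H) : Prop := ∃ α : ℝ, 0 < α ∧ ∀ u : H, ‖u‖ = 1 → SharpAt A u α

/-- For every unit vector there is an `α > 0`. -/
def PointwiseSharp (A : Set H) : Prop := ∀ u : H, ‖u‖ = 1 → ∃ α : ℝ, 0 < α ∧ SharpAt A u α

/-- Finite intersections of closed half spaces. -/
def Polyhedral (A : Set H) : Prop :=
  ∃ (m : ℕ) (a : Fin m → H) (b : Fin m → ℝ), 0 < m ∧ A = {x | ∀ j, ⟪a j, x⟫ ≤ b j}

end Defs

section General

variable {H : Type*} [NormedAddCommGroup H] [InnerProductSpace ℝ H]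

lemma zero_mem_normalCone (A : Set H) (x : H) : (0 : H) ∈ normalCone A x := fun a _ => by
  rw [inner_zero_right]

lemma key {A : Set H} {u v x : H} {α : ℝ} (h : SharpAt A u α) (hx : x ∈ A)
    (hv : v ∈ normalCone A x) (hd : dist u v < α) : u ∈ normalCone A x := by
  by_contra hcon
  have h1 := h x hx hcon
  have h2 := infDist_le_dist_of_mem (x := u) hv
  linarith

lemma normalCone_singleton (x : H) : normalCone ({x} : Set H) x = univ := by
  ext v
  simp [normalCone]

lemma sharp_singleton (x : H) : UniformlySharp ({x} : Set H) := by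
  refine ⟨1, one_pos, fun u _ y hy hu => ?_⟩
  rw [mem_singleton_iff] at hy
  subst hy
  rw [normalCone_singleton] at hu
  exact absurd (mem_univ _) hu

/-- The nearest point. -/
lemma exists_normal [CompleteSpace H] {A : Set H} (hne : A.Nonempty) (hcl : IsClosed A)
    (hc : Convex ℝ A) {y : H} (hy : y ∉ A) :
    ∃ x ∈ A, y - x ≠ 0 ∧ y - x ∈ normalCone A x := by
  obtain ⟨x, hx, hmin⟩ := exists_norm_eq_iInf_of_complete_convex hne hcl.isComplete hc y
  refine ⟨x, hx, fun h => hy ?_, fun a ha => ?_⟩
  · rw [sub_eq_zero] at h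
    rwa [h]
  · have := (norm_eq_iInf_iff_real_inner_le_zero hc hx).1 hmin a ha
    rwa [real_inner_comm]

/-- Orthogonal vectors to finitely many vectors. -/
lemma exists_orth [CompleteSpace H] (hinf : ¬ FiniteDimensional ℝ H) {m : ℕ} (a : Fin m → H) :
    ∃ z : H, z ≠ 0 ∧ ∀ j, ⟪a j, z⟫ = 0 := by
  have hfd : FiniteDimensional ℝ (Submodule.span ℝ (range a)) :=
    FiniteDimensional.span_of_finite ℝ (finite_range a)
  have hne : (Submodule.span ℝ (range a))ᗮ ≠ ⊥ := by
    intro h
    rw [Submodule.orthogonal_eq_bot_iff] at h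
    rw [h] at hfd
    exact hinf (Module.Finite.equiv (Submodule.topEquiv (R := ℝ) (M := H)))
  obtain ⟨z, hz, hz0⟩ := Submodule.exists_mem_ne_zero_of_ne_bot hne
  exact ⟨z, hz0, fun j => hz _ (Submodule.subset_span ⟨j, rfl⟩)⟩

/-- Bounded polyhedral sets with a point do not exist in infinite dimensions. -/
lemma not_polyhedral [CompleteSpace H] (hinf : ¬ FiniteDimensional ℝ H) {A : Set H} {x : H}
    (hx : x ∈ A) {R : ℝ} (hb : ∀ y ∈ A, ‖y‖ ≤ R) : ¬ Polyhedral A := by
  rintro ⟨m, a, b, -, rfl⟩
  obtain ⟨z, hz0, hz⟩ := exists_orth hinf a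
  have hmem : ∀ t : ℝ, x + t • z ∈ {x | ∀ j, ⟪a j, x⟫ ≤ b j} := by
    intro t j
    rw [inner_add_right, real_inner_smul_right, hz j, mul_zero, add_zero]
    exact hx j
  have hzn : 0 < ‖z‖ := norm_pos_iff.2 hz0
  have h1 := hb _ (hmem ((R + ‖x‖ + 1) / ‖z‖))
  have hR : 0 ≤ R := (norm_nonneg _).trans (hb x hx)
  have h2 : ‖((R + ‖x‖ + 1) / ‖z‖) • z‖ = R + ‖x‖ + 1 := by
    rw [norm_smul, Real.norm_eq_abs, abs_of_nonneg (by positivity), div_mul_cancel₀ _ hzn.ne']
  have h3 := norm_sub_le (x + ((R + ‖x‖ + 1) / ‖z‖) • z) x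
  rw [add_sub_cancel_left, h2] at h3
  linarith

/-- The uniformly sharp sets in dimension at least two. -/
theorem classification [CompleteSpace H] (hdim : 1 < Module.rank ℝ H) {A : Set H}
    (hne : A.Nonempty) (hcl : IsClosed A) (hc : Convex ℝ A) :
    UniformlySharp A ↔ A = univ ∨ ∃ x, A = {x} := by
  constructor
  · rintro ⟨α, hα, h⟩
    by_cases huniv : A = univ
    · exact Or.inl huniv
    · right
      obtain ⟨y, hy⟩ := (ne_univ_iff_exists_notMem A).1 huniv
      obtain ⟨x, hx, hyx0, hyx⟩ := exists_normal hne hcl hc hy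
      have hpos : 0 < ‖y - x‖ := norm_pos_iff.2 hyx0
      have hv : ‖y - x‖⁻¹ • (y - x) ∈ normalCone A x := fun a ha => by
        rw [real_inner_smul_right]
        exact mul_nonpos_of_nonneg_of_nonpos (by positivity) (hyx a ha)
      have hv1 : ‖‖y - x‖⁻¹ • (y - x)‖ = 1 := by
        rw [norm_smul, norm_inv, norm_norm, inv_mul_cancel₀ hpos.ne']
      have hclosed : IsClosed (normalCone A x) := by
        have : normalCone A x = ⋂ a ∈ A, {v | ⟪a - x, v⟫ ≤ 0} := by
          ext v
          simp [normalCone]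
        rw [this]
        refine isClosed_biInter fun a _ => ?_
        exact isClosed_le (continuous_const.inner continuous_id) continuous_const
      have hS : IsPreconnected (sphere (0 : H) 1) := isPreconnected_sphere hdim 0 1
      have hsub : sphere (0 : H) 1 ⊆ normalCone A x := by
        have hopen : IsOpen {v : H | ∃ w ∈ normalCone A x, dist v w < α} := by
          have : {v : H | ∃ w ∈ normalCone A x, dist v w < α} =
              ⋃ w ∈ normalCone A x, ball w α := by
            ext v
            simp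
          rw [this]
          exact isOpen_biUnion fun w _ => isOpen_ball
        intro u hu
        by_contra hcon
        obtain ⟨w, hw, hw1, hw2⟩ := hS {v : H | ∃ w ∈ normalCone A x, dist v w < α}
          (normalCone A x)ᶜ hopen hclosed.isOpen_compl (fun v hv => by
            by_cases hvN : v ∈ normalCone A x
            · exact Or.inl ⟨v, hvN, by simpa using hα⟩
            · exact Or.inr hvN)
          ⟨_, by rw [mem_sphere_zero_iff_norm]; exact hv1, _, hv, by simpa using hα⟩ ⟨u, hu, hcon⟩
        obtain ⟨z, hz, hwz⟩ := hw1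
        rw [mem_sphere_zero_iff_norm] at hw
        exact hw2 (key (h w hw) hx hz hwz)
      refine ⟨x, Subset.antisymm (fun a ha => ?_) (by simpa using hx)⟩
      rw [mem_singleton_iff]
      by_contra hne'
      have hpos2 : 0 < ‖a - x‖ := norm_pos_iff.2 (sub_ne_zero.2 hne')
      have hin : ‖a - x‖⁻¹ • (a - x) ∈ normalCone A x := hsub (by
        rw [mem_sphere_zero_iff_norm, norm_smul, norm_inv, norm_norm, inv_mul_cancel₀ hpos2.ne'])
      have := hin a ha
      rw [real_inner_smul_right, real_inner_self_eq_norm_sq] at this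
      have : 0 < ‖a - x‖⁻¹ * ‖a - x‖ ^ 2 := by positivity
      linarith
  · rintro (rfl | ⟨x, rfl⟩)
    · refine ⟨1, one_pos, fun u hu x _ _ => ?_⟩
      have : normalCone (univ : Set H) x = {0} := by
        ext v
        simp only [normalCone, mem_univ, true_imp_iff, mem_ofPred_eq, mem_singleton_iff]
        constructor
        · intro hv
          have := hv (x + v)
          rw [add_sub_cancel_left, real_inner_self_eq_norm_sq] at this
          have h0 : ‖v‖ = 0 := by
            have := norm_nonneg v
            nlinarith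
          exact norm_eq_zero.1 h0
        · rintro rfl a
          rw [inner_zero_right]
      rw [this, infDist_singleton, dist_zero_right, hu]
    · exact sharp_singleton x

/-- In finite dimensions pointwise sharp sets are polyhedral. -/
theorem finite_dim [FiniteDimensional ℝ H] {A : Set H}
    (hne : A.Nonempty) (hcl : IsClosed A) (hc : Convex ℝ A) (h : PointwiseSharp A) :
    Polyhedral A := by
  classical
  have : CompleteSpace H := FiniteDimensional.complete ℝ H
  have hchoose : ∀ u : H, ∃ α : ℝ, 0 < α ∧ α ≤ 1 ∧ (‖u‖ = 1 → SharpAt A u α) := by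
    intro u
    by_cases hu : ‖u‖ = 1
    · obtain ⟨α, hα, h1⟩ := h u hu
      exact ⟨min α 1, lt_min hα one_pos, min_le_right _ _, fun _ x hx hxu =>
        (min_le_left _ _).trans (h1 x hx hxu)⟩
    · exact ⟨1, one_pos, le_rfl, fun h => absurd h hu⟩
  choose α hα0 hα1 hα using hchoose
  obtain ⟨t, ht1, ht2⟩ := (isCompact_sphere (0 : H) 1).elim_nhds_subcover (fun u => ball u (α u))
    (fun u _ => ball_mem_nhds u (hα0 u))
  -- the constraints
  let T : Finset H := t.filter fun u => ∃ x ∈ A, u ∈ normalCone A x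
  have hT : ∀ u : H, ∃ b : ℝ, u ∈ T → ((∀ a ∈ A, ⟪u, a⟫ ≤ b) ∧ ∀ x ∈ A, u ∈ normalCone A x →
      ⟪u, x⟫ = b) := by
    intro u
    by_cases hu : u ∈ T
    · obtain ⟨-, x, hx, hux⟩ := Finset.mem_filter.1 hu
      have h1 : ∀ x' ∈ A, u ∈ normalCone A x' → ∀ a ∈ A, ⟪u, a⟫ ≤ ⟪u, x'⟫ := by
        intro x' _ hx' a ha
        have := hx' a ha
        rw [real_inner_comm, inner_sub_right] at this
        linarith
      refine ⟨⟪u, x⟫, fun _ => ⟨h1 x hx hux, fun x' hx' hux' => ?_⟩⟩
      exact le_antisymm (h1 x hx hux x' hx') (h1 x' hx' hux' x hx)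
    · exact ⟨0, fun h => absurd h hu⟩
  choose b hb using hT
  let e := T.equivFin
  refine ⟨T.card + 1, Fin.cons 0 fun j => ((e.symm j : T) : H), Fin.cons 0 fun j => b (e.symm j),
    Nat.succ_pos _, ?_⟩
  ext y
  simp only [mem_ofPred_eq]
  constructor
  · intro hy j
    refine Fin.cases ?_ (fun j => ?_) j
    · simp
    · simp only [Fin.cons_succ]
      exact (hb _ (e.symm j).2).1 y hy
  · intro hy
    by_contra hcon
    obtain ⟨x, hx, hyx0, hyx⟩ := exists_normal hne hcl hc hcon
    have hpos : 0 < ‖y - x‖ := norm_pos_iff.2 hyx0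
    have hv : ‖y - x‖⁻¹ • (y - x) ∈ normalCone A x := fun a ha => by
      rw [real_inner_smul_right]
      exact mul_nonpos_of_nonneg_of_nonpos (by positivity) (hyx a ha)
    have hv1 : ‖‖y - x‖⁻¹ • (y - x)‖ = 1 := by
      rw [norm_smul, norm_inv, norm_norm, inv_mul_cancel₀ hpos.ne']
    set v := ‖y - x‖⁻¹ • (y - x) with hvdef
    obtain ⟨u, hut, huv⟩ := mem_iUnion₂.1 (ht2 (show v ∈ sphere (0 : H) 1 by
      rw [mem_sphere_zero_iff_norm, hv1]))
    have hu1 : ‖u‖ = 1 := by
      have := ht1 u hut
      rwa [mem_sphere_zero_iff_norm] at this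
    have hd : dist u v < α u := by
      rw [dist_comm]
      exact huv
    have huN : u ∈ normalCone A x := key (hα u hu1) hx hv hd
    have huT : u ∈ T := Finset.mem_filter.2 ⟨hut, x, hx, huN⟩
    have h2 := hy (Fin.succ (e ⟨u, huT⟩))
    simp only [Fin.cons_succ, Equiv.symm_apply_apply] at h2
    rw [← (hb u huT).2 x hx huN] at h2
    have h3 : y = x + ‖y - x‖ • v := by
      rw [hvdef, smul_smul, mul_inv_cancel₀ hpos.ne', one_smul, add_sub_cancel]
    rw [h3, inner_add_right, real_inner_smul_right] at h2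
    have h4 : ‖u - v‖ < 1 := by
      rw [← dist_eq_norm]
      exact hd.trans_le (hα1 u)
    have h5 : ‖u - v‖ ^ 2 < 1 := by
      have := norm_nonneg (u - v)
      nlinarith
    rw [norm_sub_sq_real u v, hu1, hv1] at h5
    have h6 : 0 < ‖y - x‖ * ⟪u, v⟫ := mul_pos hpos (by linarith)
    linarith

end General

section Cross

lemma rin (a b : ℝ) : ⟪a, b⟫ = a * b := by
  simp [mul_comm]

/-- The Hilbert space `ℓ₂`. -/
abbrev L2 : Type := lp (fun _ : ℕ => ℝ) 2

/-- The unit vectors. -/
noncomputable def e (n : ℕ) : L2 := lp.single 2 n (1 : ℝ)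

/-- The cross-polytope `{x ∈ ℓ₂ : Σ |x_n| ≤ 1}`. -/
def cross : Set L2 := {x | ∀ s : Finset ℕ, ∑ n ∈ s, |x n| ≤ 1}

lemma e_apply (n m : ℕ) : (e n : ℕ → ℝ) m = if m = n then 1 else 0 := by
  unfold e
  by_cases h : m = n
  · subst h
    simp
  · simp [lp.single_apply, Pi.single_eq_of_ne h, h]

lemma inner_e (n : ℕ) (v : L2) : ⟪e n, v⟫ = v n := by
  rw [lp.inner_eq_tsum, tsum_eq_single n]
  · rw [e_apply]
    simp
  · intro m hm
    rw [e_apply]
    simp [hm]

lemma smul_e_mem (n : ℕ) {c : ℝ} (hc : |c| ≤ 1) : c • e n ∈ cross := by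
  intro s
  have h : ∀ m, |(c • e n : L2) m| = if m = n then |c| else 0 := by
    intro m
    rw [lp.coeFn_smul, Pi.smul_apply, e_apply]
    by_cases h : m = n <;> simp [h]
  simp only [h]
  rw [Finset.sum_ite_eq']
  split_ifs
  · exact hc
  · exact zero_le_one

lemma summable_cross {x : L2} (hx : x ∈ cross) : Summable fun n => |x n| :=
  summable_of_sum_le (fun _ => abs_nonneg _) hx

lemma tsum_cross {x : L2} (hx : x ∈ cross) : ∑' n, |x n| ≤ 1 :=
  (summable_cross hx).tsum_le_of_sum_le hx

lemma inner_le {x v : L2} (hx : x ∈ cross) {M : ℝ} (hM : ∀ n, |v n| ≤ M) :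
    ⟪x, v⟫ ≤ ∑' n, |x n| * M := by
  rw [lp.inner_eq_tsum]
  refine (lp.summable_inner x v).tsum_le_tsum (fun n => ?_) ((summable_cross hx).mul_right M)
  rw [rin]
  refine (le_abs_self _).trans ?_
  rw [abs_mul]
  exact mul_le_mul_of_nonneg_left (hM n) (abs_nonneg _)

lemma mem_normalCone_iff {x v : L2} (hx : x ∈ cross) :
    v ∈ normalCone cross x ↔ ∀ n, |v n| ≤ ⟪x, v⟫ := by
  constructor
  · intro h n
    rw [abs_le']
    constructor
    · have := h _ (smul_e_mem n (c := 1) (by simp))
      rw [inner_sub_left, real_inner_smul_left, inner_e] at this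
      linarith
    · have := h _ (smul_e_mem n (c := -1) (by simp))
      rw [inner_sub_left, real_inner_smul_left, inner_e] at this
      linarith
  · intro h a ha
    rw [inner_sub_left]
    have h0 : 0 ≤ ⟪x, v⟫ := (abs_nonneg _).trans (h 0)
    have h1 := inner_le ha h
    rw [tsum_mul_right] at h1
    have h2 := tsum_cross ha
    nlinarith

lemma cross_closed : IsClosed cross := by
  have : cross = ⋂ s : Finset ℕ, {x : L2 | ∑ n ∈ s, |x n| ≤ 1} := by
    ext x
    simp [cross]
  rw [this]
  refine isClosed_iInter fun s => isClosed_le (continuous_finsetSum _ fun n _ => ?_)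
    continuous_const
  refine continuous_abs.comp ?_
  have : (fun x : L2 => (x n : ℝ)) = fun x => ⟪e n, x⟫ := by
    funext x
    rw [inner_e]
  rw [this]
  exact continuous_const.inner continuous_id

lemma cross_convex : Convex ℝ cross := by
  intro x hx y hy a b ha hb hab s
  calc ∑ n ∈ s, |(a • x + b • y : L2) n| ≤ ∑ n ∈ s, (a * |x n| + b * |y n|) := by
        refine Finset.sum_le_sum fun n _ => ?_
        rw [lp.coeFn_add, Pi.add_apply, lp.coeFn_smul, lp.coeFn_smul, Pi.smul_apply,
          Pi.smul_apply, smul_eq_mul, smul_eq_mul]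
        refine (abs_add_le _ _).trans ?_
        rw [abs_mul, abs_mul, abs_of_nonneg ha, abs_of_nonneg hb]
    _ = a * ∑ n ∈ s, |x n| + b * ∑ n ∈ s, |y n| := by
        rw [Finset.sum_add_distrib, Finset.mul_sum, Finset.mul_sum]
    _ ≤ a * 1 + b * 1 := add_le_add (mul_le_mul_of_nonneg_left (hx s) ha)
        (mul_le_mul_of_nonneg_left (hy s) hb)
    _ = 1 := by rw [mul_one, mul_one, hab]

lemma coord_le (x : L2) (n : ℕ) : |x n| ≤ ‖x‖ := by
  have := lp.norm_apply_le_norm (p := 2) two_ne_zero x n
  simpa using this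

lemma cross_bounded : ∀ x ∈ cross, ‖x‖ ≤ 1 := by
  intro x hx
  have h1 : ‖x‖ ^ 2 = ⟪x, x⟫ := (real_inner_self_eq_norm_sq x).symm
  have h2 := inner_le hx (coord_le x)
  rw [tsum_mul_right, ← h1] at h2
  have h3 := tsum_cross hx
  have h4 := norm_nonneg x
  have h5 : ‖x‖ ^ 2 ≤ 1 * ‖x‖ := h2.trans (mul_le_mul_of_nonneg_right h3 h4)
  by_contra hcon
  push Not at hcon
  nlinarith

/-- The gap: the largest modulus of a coordinate is attained and isolated. -/
lemma gap (u : L2) (hu : ‖u‖ = 1) : ∃ M δ : ℝ, 0 < δ ∧ δ ≤ M ∧ (∃ n, |u n| = M) ∧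
    ∀ n, |u n| = M ∨ |u n| ≤ M - δ := by
  have hne : ∃ n, u n ≠ 0 := by
    by_contra hcon
    push Not at hcon
    have h0 : ⟪u, u⟫ = 0 := by
      rw [lp.inner_eq_tsum]
      simp [hcon]
    rw [real_inner_self_eq_norm_sq, hu] at h0
    norm_num at h0
  obtain ⟨n₀, hn₀⟩ := hne
  have hpos : 0 < |u n₀| := abs_pos.2 hn₀
  have hlim : Tendsto (fun n => |u n|) cofinite (𝓝 0) := by
    have h1 : Summable fun n => ⟪u n, u n⟫ := lp.summable_inner u u
    have h2 := h1.tendsto_cofinite_zero
    have h3 := (Real.continuous_sqrt.tendsto 0).comp h2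
    rw [Real.sqrt_zero] at h3
    refine h3.congr fun n => ?_
    simp only [Function.comp_apply, real_inner_self_eq_norm_sq, Real.norm_eq_abs]
    rw [Real.sqrt_sq (abs_nonneg _)]
  have hfin : {n | ¬ |u n| < |u n₀| / 2}.Finite :=
    hlim.eventually (eventually_lt_nhds (by positivity : (0 : ℝ) < |u n₀| / 2))
  let S : Finset ℕ := hfin.toFinset
  have hS : ∀ n, n ∈ S ↔ |u n₀| / 2 ≤ |u n| := by
    intro n
    simp [S]
  have hn₀S : n₀ ∈ S := (hS _).2 (by linarith)
  obtain ⟨m, hmS, hm⟩ := S.exists_max_image (fun n => |u n|) ⟨n₀, hn₀S⟩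
  have hmax : ∀ n, |u n| ≤ |u m| := by
    intro n
    by_cases hn : n ∈ S
    · exact hm n hn
    · rw [hS] at hn
      push Not at hn
      have := hm n₀ hn₀S
      simp only at this
      linarith
  have hm0 := hmax n₀
  let T : Finset ℕ := S.filter fun n => |u n| ≠ |u m|
  by_cases hT : T.Nonempty
  · obtain ⟨k, hkT, hk⟩ := T.exists_max_image (fun n => |u n|) hT
    have hkm : |u k| < |u m| := lt_of_le_of_ne (hmax k) (Finset.mem_filter.1 hkT).2
    refine ⟨|u m|, min (|u m| - |u k|) (|u m| / 2), lt_min (by linarith) (by linarith),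
      (min_le_right _ _).trans (by linarith), ⟨m, rfl⟩, fun n => ?_⟩
    by_cases hn : |u n| = |u m|
    · exact Or.inl hn
    · right
      by_cases hnS : n ∈ S
      · have h1 := hk n (Finset.mem_filter.2 ⟨hnS, hn⟩)
        have h2 := min_le_left (|u m| - |u k|) (|u m| / 2)
        simp only at h1
        linarith
      · rw [hS] at hnS
        push Not at hnS
        have h2 := min_le_right (|u m| - |u k|) (|u m| / 2)
        linarith
  · refine ⟨|u m|, |u m| / 2, by linarith, by linarith, ⟨m, rfl⟩, fun n => ?_⟩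
    by_cases hn : |u n| = |u m|
    · exact Or.inl hn
    · right
      by_cases hnS : n ∈ S
      · exact absurd ⟨n, Finset.mem_filter.2 ⟨hnS, hn⟩⟩ hT
      · rw [hS] at hnS
        push Not at hnS
        linarith

lemma cross_sharp : PointwiseSharp cross := by
  intro u hu
  obtain ⟨M, δ, hδ, hδM, ⟨m, hm⟩, hgap⟩ := gap u hu
  refine ⟨δ / 2, by positivity, fun x hx hux => ?_⟩
  by_contra hcon
  push Not at hcon
  obtain ⟨v, hv, hd⟩ := (infDist_lt_iff ⟨0, zero_mem_normalCone cross x⟩).1 hcon
  apply hux
  rw [mem_normalCone_iff hx] at hv ⊢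
  set M' := ⟪x, v⟫ with hM'
  have hco : ∀ n, |u n - v n| < δ / 2 := by
    intro n
    have h1 := coord_le (u - v) n
    rw [lp.coeFn_sub, Pi.sub_apply, ← dist_eq_norm] at h1
    exact h1.trans_lt hd
  have hM0 : 0 < M := hδ.trans_le hδM
  have hM1 : M - δ / 2 < M' := by
    have h1 := hco m
    have h2 := hv m
    have h3 := abs_sub_abs_le_abs_sub (u m) (v m)
    rw [hm] at h3
    linarith
  have hM'0 : 0 < M' := by linarith
  have hle := inner_le hx hv
  have hts := tsum_cross hx
  -- equality in every coordinate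
  have hsum1 : Summable fun n => |x n| * M' := (summable_cross hx).mul_right _
  have hsum2 : Summable fun n => x n * v n := by
    have := lp.summable_inner (𝕜 := ℝ) x v
    refine this.congr fun n => ?_
    exact (rin _ _).symm
  have hin : M' = ∑' n, x n * v n := by
    rw [hM', lp.inner_eq_tsum]
    exact tsum_congr fun n => rin _ _
  have hle' : ∀ n, x n * v n ≤ |x n| * M' := fun n => by
    refine (le_abs_self _).trans ?_
    rw [abs_mul]
    exact mul_le_mul_of_nonneg_left (hv n) (abs_nonneg _)
  rw [tsum_mul_right] at hle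
  have ht1 : ∑' n, |x n| = 1 := by
    refine le_antisymm hts ?_
    by_contra h
    push Not at h
    nlinarith
  have heq : ∀ n, x n * v n = |x n| * M' := by
    intro n
    by_contra hne
    have hlt : x n * v n < |x n| * M' := lt_of_le_of_ne (hle' n) hne
    have := hsum2.tsum_lt_tsum hle' hlt hsum1
    rw [tsum_mul_right, ht1, one_mul, ← hin] at this
    exact lt_irrefl _ this
  have hxu : ∀ n, x n * u n = |x n| * M := by
    intro n
    by_cases hxn : x n = 0
    · simp [hxn]
    · have h1 : |v n| = M' := by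
        have h2 : |x n| * |v n| = |x n| * M' := by
          rw [← abs_mul, heq n, abs_of_nonneg (by positivity)]
        exact mul_left_cancel₀ (abs_ne_zero.2 hxn) h2
      have h3 : |u n| = M := by
        rcases hgap n with h | h
        · exact h
        · exfalso
          have h4 := hco n
          have h5 := abs_sub_abs_le_abs_sub (v n) (u n)
          rw [abs_sub_comm] at h5
          linarith
      have h4 := abs_lt.1 (hco n)
      rcases lt_or_gt_of_ne hxn with hneg | hpos
      · have h5 : v n = -M' := by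
          have := heq n
          rw [abs_of_neg hneg] at this
          have h6 : x n * (v n + M') = 0 := by linarith
          rcases mul_eq_zero.1 h6 with h7 | h7
          · exact absurd h7 hxn
          · linarith
        have h6 : u n < 0 := by linarith [h4.2]
        rw [abs_of_neg h6] at h3
        rw [abs_of_neg hneg]
        nlinarith
      · have h5 : v n = M' := by
          have := heq n
          rw [abs_of_pos hpos] at this
          exact mul_left_cancel₀ hxn this
        have h6 : 0 < u n := by linarith [h4.1]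
        rw [abs_of_pos h6] at h3
        rw [abs_of_pos hpos, h3]
  have hxM : ⟪x, u⟫ = M := by
    rw [lp.inner_eq_tsum]
    have : (fun n => ⟪x n, u n⟫) = fun n => |x n| * M := by
      funext n
      rw [rin, ← hxu n]
    rw [this, tsum_mul_right, ht1, one_mul]
  intro n
  rw [hxM]
  rcases hgap n with h | h
  · exact h.le
  · linarith

lemma cross_span : closure (Submodule.span ℝ cross : Set L2) = univ := by
  have hmem : ∀ n, e n ∈ Submodule.span ℝ cross := fun n => by
    have := smul_e_mem n (c := 1) (by simp)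
    rw [one_smul] at this
    exact Submodule.subset_span this
  have horth : (Submodule.span ℝ cross)ᗮ = ⊥ := by
    rw [Submodule.eq_bot_iff]
    intro v hv
    have h0 : ∀ n, v n = 0 := fun n => by
      have := hv _ (hmem n)
      rwa [inner_e] at this
    ext n
    simp [h0 n]
  rw [← Submodule.topologicalClosure_eq_top_iff] at horth
  rw [← Submodule.topologicalClosure_coe, horth]
  rfl

lemma not_fd : ¬ FiniteDimensional ℝ L2 := by
  intro h
  have hli : LinearIndependent ℝ e := by
    have ho : Orthonormal ℝ e := by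
      rw [orthonormal_iff_ite]
      intro i j
      rw [inner_e, e_apply]
    exact ho.linearIndependent
  have := hli.finite
  exact not_finite ℕ

end Cross

/-- (1) In every infinite-dimensional real Hilbert space singletons are uniformly sharp and not
polyhedral. (2) In a real Hilbert space of dimension at least two the nonempty closed convex
uniformly sharp sets are exactly the whole space and the singletons. (3) In finite dimensions
every nonempty closed convex set which is sharp with respect to every unit vector (with a constant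
depending on the vector) is polyhedral. (4) The cross-polytope of `ℓ₂` is a bounded closed convex
set with dense linear span which is sharp with respect to every unit vector (with a constant
depending on the vector), but not polyhedral. -/
theorem result :
    (∀ (H : Type) [NormedAddCommGroup H] [InnerProductSpace ℝ H] [CompleteSpace H],
      ¬ FiniteDimensional ℝ H → ∀ x : H, UniformlySharp ({x} : Set H) ∧
        ¬ Polyhedral ({x} : Set H)) ∧
    (∀ (H : Type) [NormedAddCommGroup H] [InnerProductSpace ℝ H] [CompleteSpace H],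
      1 < Module.rank ℝ H → ∀ A : Set H, A.Nonempty → IsClosed A → Convex ℝ A →
        (UniformlySharp A ↔ A = univ ∨ ∃ x, A = {x})) ∧
    (∀ (H : Type) [NormedAddCommGroup H] [InnerProductSpace ℝ H] [FiniteDimensional ℝ H]
      (A : Set H), A.Nonempty → IsClosed A → Convex ℝ A → PointwiseSharp A → Polyhedral A) ∧
    (∃ A : Set L2, A.Nonempty ∧ IsClosed A ∧ Convex ℝ A ∧ (∀ x ∈ A, ‖x‖ ≤ 1) ∧
      closure (Submodule.span ℝ A : Set L2) = univ ∧ PointwiseSharp A ∧ ¬ Polyhedral A) := by
  refine ⟨?_, ?_, ?_, ?_⟩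
  · intro H _ _ _ hinf x
    exact ⟨sharp_singleton x, not_polyhedral hinf (mem_singleton x) (R := ‖x‖) (by
      rintro y rfl
      exact le_rfl)⟩
  · intro H _ _ _ hdim A hne hcl hc
    exact classification hdim hne hcl hc
  · intro H _ _ _ A hne hcl hc h
    exact finite_dim hne hcl hc h
  · refine ⟨cross, ⟨0, fun s => by simp⟩, cross_closed, cross_convex, cross_bounded, cross_span,
      cross_sharp, not_polyhedral not_fd (x := 0) (fun s => by simp) cross_bounded⟩

end Pool.Agent.Results.MP_c48ca6_an.Sharp
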